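import Mathlib
import Pool.Agent.Lib.helper31.IncVar

namespace Pool.Agent.Results.MP_ea093d_al.InfiniteLattice

open Pool.Agent.Lib.helper31.IncVar

/-- The inclusive variety generated by `S`: all semigroups satisfying every identical
inclusion satisfied by `S`. -/
def Generated (S : Semigrp.{0}) : Set Semigrp.{0} :=
  {T | ∀ (u : Word) (V : Set Word), Sat S u V → Sat T u V}

inductive Nl (G : Type) (E : G → G → Prop) : Type
  | gen : G → Nl G E
  | w : Nl G E
  | z : Nl G E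

variable {G : Type} {E : G → G → Prop}

open Classical in
noncomputable def Nl.mul : Nl G E → Nl G E → Nl G E
  | .gen a, .gen b => if E a b then .w else .z
  | _, _ => .z

lemma Nl.mul_cases (a b : Nl G E) : Nl.mul a b = .z ∨
    (Nl.mul a b = .w ∧ ∃ g h, a = .gen g ∧ b = .gen h ∧ E g h) := by
  cases a <;> cases b <;> simp [Nl.mul]
  rename_i g h
  by_cases e : E g h <;> simp [e]

lemma Nl.mul_mul (a b c : Nl G E) : Nl.mul (Nl.mul a b) c = .z := by
  rcases Nl.mul_cases a b with h | ⟨h, -⟩ <;> rw [h] <;> cases c <;> rfl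

lemma Nl.mul_mul' (a b c : Nl G E) : Nl.mul a (Nl.mul b c) = .z := by
  rcases Nl.mul_cases b c with h | ⟨h, -⟩ <;> rw [h] <;> cases a <;> rfl

noncomputable instance : Semigroup (Nl G E) where
  mul := Nl.mul
  mul_assoc a b c := (Nl.mul_mul a b c).trans (Nl.mul_mul' a b c).symm

instance [Finite G] : Finite (Nl G E) :=
  Finite.of_surjective (fun o : Option (Option G) => match o with
    | none => (Nl.z : Nl G E)
    | some none => Nl.w
    | some (some g) => Nl.gen g) (by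
      intro a
      cases a with
      | gen g => exact ⟨some (some g), rfl⟩
      | w => exact ⟨some none, rfl⟩
      | z => exact ⟨none, rfl⟩)

noncomputable def ev (f : ℕ → Nl G E) : Word → Nl G E
  | ⟨x, []⟩ => f x
  | ⟨x, [y]⟩ => Nl.mul (f x) (f y)
  | ⟨_, _ :: _ :: _⟩ => .z

lemma hom_eq (φ : Word →ₙ* Nl G E) (v : Word) : φ v = ev (fun x => φ (.of x)) v := by
  rcases v with ⟨x, _ | ⟨y, _ | ⟨t, l⟩⟩⟩
  · rfl
  · exact map_mul φ (.of x) (.of y)
  · have : (⟨x, y :: t :: l⟩ : Word) = .of x * .of y * ⟨t, l⟩ := rfl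
    rw [this, map_mul, map_mul]
    exact Nl.mul_mul _ _ _

/-- generators `0 = a, 1 = b₁, 2 = b₂, 3 = c, 4 = d, 5 = e` -/
def E0 (i j : Fin 6) : Prop :=
  (i.val ≤ 3 ∧ j.val ≤ 3 ∧ ¬ (i = 1 ∧ j = 2) ∧ ¬ (i = 3 ∧ j = 3)) ∨ (i = 4 ∧ j = 5)

instance : DecidableRel E0 := fun _ _ => by unfold E0; infer_instance

lemma mulS (i j : Fin 6) : Nl.mul (Nl.gen i : Nl (Fin 6) E0) (.gen j) =
    if E0 i j then .w else .z := by
  by_cases h : E0 i j <;> simp [Nl.mul, h]

lemma key (hE : ∀ g, ¬ E g g) (f : ℕ → Nl G E) (u : Word) :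
    ∃ g : ℕ → Nl (Fin 6) E0, ∀ v, ev g v = ev g u → ev f v = ev f u := by
  classical
  rcases u with ⟨x, _ | ⟨y, _ | ⟨t, l⟩⟩⟩
  · refine ⟨fun s => if f s = f x then .gen 0 else .z, ?_⟩
    rintro ⟨x', _ | ⟨y', _ | ⟨t', l'⟩⟩⟩ h
    · simp only [ev] at h ⊢
      by_contra hc
      simp [hc] at h
    · simp only [ev, if_true] at h
      rcases Nl.mul_cases (if f x' = f x then (Nl.gen 0 : Nl (Fin 6) E0) else .z)
        (if f y' = f x then .gen 0 else .z) with e | ⟨e, -⟩ <;> rw [e] at h <;> cases h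
    · simp [ev] at h
  · rcases Nl.mul_cases (f x) (f y) with hz | ⟨hw, a, b, ha, hb, hab⟩
    · by_cases hxy : f x = f y
      · refine ⟨fun s => .gen (if f s = f x then 3 else 0), ?_⟩
        rintro ⟨x', _ | ⟨y', _ | ⟨t', l'⟩⟩⟩ h
        · simp [ev, mulS, ← hxy, E0] at h
        · simp only [ev, mulS, ← hxy, if_true] at h ⊢
          by_cases h1 : f x' = f x <;> by_cases h2 : f y' = f x
          · rw [h1, h2]
          all_goals simp [h1, h2, E0] at h
        · exact hz.symm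
      · refine ⟨fun s => .gen (if f s = f x then 1 else if f s = f y then 2 else 0), ?_⟩
        have hyx : ¬ f y = f x := fun e => hxy e.symm
        rintro ⟨x', _ | ⟨y', _ | ⟨t', l'⟩⟩⟩ h
        · simp [ev, mulS, hyx, E0] at h
        · simp only [ev, mulS, hyx, if_true, if_false] at h ⊢
          by_cases h1 : f x' = f x <;> by_cases h2 : f y' = f y
          · rw [h1, h2]
          · by_cases h3 : f y' = f x <;> simp [h1, h2, h3, hxy, E0] at h
          · by_cases h3 : f x' = f y <;> simp [h1, h2, h3, hyx, E0] at h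
          · by_cases h3 : f x' = f y <;> by_cases h4 : f y' = f x <;>
              simp [h1, h2, h3, h4, hxy, hyx, E0] at h
        · exact hz.symm
    · have hxy : ¬ f x = f y := by
        intro e
        rw [ha, hb] at e
        cases e
        exact hE _ hab
      have hyx : ¬ f y = f x := fun e => hxy e.symm
      refine ⟨fun s => .gen (if f s = f x then 4 else if f s = f y then 5 else 3), ?_⟩
      rintro ⟨x', _ | ⟨y', _ | ⟨t', l'⟩⟩⟩ h
      · simp [ev, mulS, hyx, E0] at h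
      · simp only [ev, mulS, hyx, if_true, if_false] at h ⊢
        by_cases h1 : f x' = f x <;> by_cases h2 : f y' = f y
        · rw [h1, h2]
        · by_cases h3 : f y' = f x <;> simp [h1, h2, h3, hxy, E0] at h
        · by_cases h3 : f x' = f y <;> simp [h1, h2, h3, hyx, E0] at h
        · by_cases h3 : f x' = f y <;> by_cases h4 : f y' = f x <;>
            simp [h1, h2, h3, h4, hxy, hyx, E0] at h
      · simp [ev, mulS, hyx, E0] at h
  · refine ⟨fun _ => .gen 0, ?_⟩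
    rintro ⟨x', _ | ⟨y', _ | ⟨t', l'⟩⟩⟩ h
    · simp [ev] at h
    · simp [ev, mulS, E0] at h
    · rfl

noncomputable def S0 : Semigrp.{0} := Semigrp.of (Nl (Fin 6) E0)

lemma mem_gen (hE : ∀ g, ¬ E g g) : Semigrp.of (Nl G E) ∈ Generated S0 := by
  intro u V h φ
  obtain ⟨g, hg⟩ := key hE (fun x => φ (.of x)) u
  obtain ⟨v, hv, e⟩ := h (FreeSemigroup.lift g)
  refine ⟨v, hv, ?_⟩
  have e1 := hom_eq (FreeSemigroup.lift g) u
  have e2 := hom_eq (FreeSemigroup.lift g) v
  have e3 : ev g v = ev g u := e2.symm.trans (e.symm.trans e1)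
  exact (hom_eq φ u).trans ((hg v e3).symm.trans (hom_eq φ v).symm)

def P (n : ℕ) (i j : ℕ) : Prop := j = i + 1 ∧ j ≤ n

def uu (m : ℕ) : Word := ⟨0, 1 :: 2 :: List.range m⟩

def VV (m : ℕ) : Set Word := {v | ∃ i ≤ m, v = ⟨i, [i + 1]⟩}

lemma P_sat (n m : ℕ) (h : n ≤ m) : Sat (Semigrp.of (Nl ℕ (P n))) (uu m) (VV m) := by
  intro φ
  by_contra hc
  push Not at hc
  have hu : φ (uu m) = Nl.z := hom_eq φ _
  have step : ∀ i ≤ m, ∃ a b, φ (.of i) = Nl.gen a ∧ φ (.of (i + 1)) = Nl.gen b ∧ P n a b := by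
    intro i hi
    have h1 := hc ⟨i, [i + 1]⟩ ⟨i, hi, rfl⟩
    rw [hu, hom_eq φ] at h1
    rcases Nl.mul_cases (φ (.of i)) (φ (.of (i + 1))) with e | ⟨-, e⟩
    · exact absurd e.symm h1
    · exact e
  have ind : ∀ i ≤ m, ∃ b, φ (.of (i + 1)) = Nl.gen b ∧ i + 1 ≤ b ∧ b ≤ n := by
    intro i
    induction i with
    | zero =>
      intro hi
      obtain ⟨a, b, -, hb, h1, h2⟩ := step 0 hi
      exact ⟨b, hb, by omega, h2⟩
    | succ i ih =>
      intro hi
      obtain ⟨a, b, ha, hb, h1, h2⟩ := step (i + 1) hi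
      obtain ⟨c, hc, h3, -⟩ := ih (by omega)
      have : a = c := by
        have := ha.symm.trans hc
        cases this
        rfl
      exact ⟨b, hb, by omega, h2⟩
  obtain ⟨b, -, h1, h2⟩ := ind m le_rfl
  omega

lemma P_not_sat (n m : ℕ) (h : m < n) : ¬ Sat (Semigrp.of (Nl ℕ (P n))) (uu m) (VV m) := by
  intro hs
  obtain ⟨v, ⟨i, hi, rfl⟩, e⟩ := hs (FreeSemigroup.lift (fun x => (Nl.gen x : Nl ℕ (P n))))
  have e1 := hom_eq (FreeSemigroup.lift (fun x => (Nl.gen x : Nl ℕ (P n)))) (uu m)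
  have e2 := hom_eq (FreeSemigroup.lift (fun x => (Nl.gen x : Nl ℕ (P n)))) ⟨i, [i + 1]⟩
  have e3 := e1.symm.trans (e.trans e2)
  have hP : P n i (i + 1) := ⟨rfl, by omega⟩
  simp [ev, uu, Nl.mul, hP] at e3

def K (m : ℕ) : Set Semigrp.{0} := {T | T ∈ Generated S0 ∧ Sat T (uu m) (VV m)}

lemma K_variety (m : ℕ) : IsInclusiveVariety (K m) := by
  refine ⟨insert (uu m, VV m) {p | Sat S0 p.1 p.2}, ?_, ?_⟩
  · rintro p (rfl | hp)
    · exact ⟨_, 0, Nat.zero_le _, rfl⟩
    · obtain ⟨v, hv, -⟩ := hp (FreeSemigroup.lift (fun _ => (Nl.z : Nl (Fin 6) E0)))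
      exact ⟨v, hv⟩
  · ext T
    constructor
    · rintro ⟨h1, h2⟩ p (rfl | hp)
      · exact h2
      · exact h1 _ _ hp
    · intro h
      exact ⟨fun u V huv => h (u, V) (Or.inr huv), h _ (Or.inl rfl)⟩

lemma K_ne (m n : ℕ) (h : m < n) : K m ≠ K n := by
  intro e
  have h1 : Semigrp.of (Nl ℕ (P n)) ∈ K n :=
    ⟨mem_gen (fun g hg => by have := hg.1; omega), P_sat n n le_rfl⟩
  rw [← e] at h1
  exact P_not_sat n m h h1.2

theorem result : ∃ S : Semigrp.{0}, Finite S ∧ Nonempty S ∧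
    Set.Infinite {K : Set Semigrp.{0} | IsInclusiveVariety K ∧ K ⊆ Generated S} := by
  refine ⟨S0, inferInstanceAs (Finite (Nl (Fin 6) E0)), ⟨(Nl.z : Nl (Fin 6) E0)⟩, ?_⟩
  refine Set.infinite_of_injective_forall_mem (f := K) ?_ (fun m => ⟨K_variety m, fun T h => h.1⟩)
  intro m n e
  rcases lt_trichotomy m n with h | h | h
  · exact absurd e (K_ne m n h)
  · exact h
  · exact absurd e.symm (K_ne n m h)

end Pool.Agent.Results.MP_ea093d_al.InfiniteLattice
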